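import Mathlib
import Pool.Agent.H425R3.JL.F3

namespace Pool.Agent.H425R3.PK

theorem zeta_sq_apply (j : ℕ) :
    (((ArithmeticFunction.zeta ^ 2 : ArithmeticFunction ℕ) j : ℕ) : ℝ) = (j.divisors.card : ℝ) := by
  have h : (ArithmeticFunction.zeta ^ 2 : ArithmeticFunction ℕ) j = j.divisors.card := by
    rw [pow_two, ArithmeticFunction.zeta_mul_apply, Finset.card_eq_sum_ones]
    apply Finset.sum_congr rfl
    intro i hi
    rw [ArithmeticFunction.zeta_apply_ne (Nat.pos_of_mem_divisors hi).ne']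
  rw [h]

theorem E_eq (E : ℝ → ℝ)
    (hE : ∀ x : ℝ, E x =
      ((∑ j ∈ Finset.Icc 1 ⌊x⌋₊, (((ArithmeticFunction.zeta ^ 2 : ArithmeticFunction ℕ) j : ℕ) : ℝ))
        - x * (Real.log x + 2 * Real.eulerMascheroniConstant - 1)) / x ^ (1 / 4 : ℝ)) :
    E = Pool.Agent.H425R3.JL.Edv := by
  funext x
  rw [hE x]
  unfold Pool.Agent.H425R3.JL.Edv
  congr 1
  rw [Finset.sum_congr rfl (fun j _ => zeta_sq_apply j)]
  ring

end Pool.Agent.H425R3.PK
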